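import Mathlib

set_option autoImplicit false

namespace Pool.Agent.KS6_24.LN.Base

open Finset Filter Topology

/-! ### Weyl equidistribution -/

noncomputable def avg (θ : ℝ) (K : ℕ) (F : C(AddCircle (1:ℝ), ℂ)) : ℂ :=
  (∑ D ∈ range K, F ((D * θ : ℝ) : AddCircle (1:ℝ))) / K

noncomputable def I1 (F : C(AddCircle (1:ℝ), ℂ)) : ℂ := ∫ u in (0:ℝ)..1, F ((u : ℝ) : AddCircle (1:ℝ))

lemma cont_coe (F : C(AddCircle (1:ℝ), ℂ)) : Continuous (fun u : ℝ => F ((u : ℝ) : AddCircle (1:ℝ))) :=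
  F.continuous.comp (AddCircle.continuous_mk' 1)

lemma avg_norm_le (θ : ℝ) (K : ℕ) (F : C(AddCircle (1:ℝ), ℂ)) : ‖avg θ K F‖ ≤ ‖F‖ := by
  unfold avg
  rcases Nat.eq_zero_or_pos K with h | h
  · subst h; simp
  · rw [norm_div, Complex.norm_natCast, div_le_iff₀ (by exact_mod_cast h)]
    calc ‖∑ D ∈ range K, F ((D * θ : ℝ) : AddCircle (1:ℝ))‖ 
        ≤ ∑ D ∈ range K, ‖F ((D * θ : ℝ) : AddCircle (1:ℝ))‖ := norm_sum_le _ _
      _ ≤ ∑ D ∈ range K, ‖F‖ := Finset.sum_le_sum fun _ _ => F.norm_coe_le_norm _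
      _ = ‖F‖ * K := by simp [mul_comm]

lemma I1_norm_le (F : C(AddCircle (1:ℝ), ℂ)) : ‖I1 F‖ ≤ ‖F‖ := by
  unfold I1
  have := intervalIntegral.norm_integral_le_of_norm_le_const (a := (0:ℝ)) (b := 1) (C := ‖F‖)
    (f := fun u : ℝ => F ((u : ℝ) : AddCircle (1:ℝ))) (fun u _ => F.norm_coe_le_norm _)
  simpa using this

lemma avg_add (θ : ℝ) (K : ℕ) (F G : C(AddCircle (1:ℝ), ℂ)) : avg θ K (F + G) = avg θ K F + avg θ K G := by
  simp [avg, Finset.sum_add_distrib, add_div]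

lemma avg_smul (θ : ℝ) (K : ℕ) (c : ℂ) (F : C(AddCircle (1:ℝ), ℂ)) : avg θ K (c • F) = c * avg θ K F := by
  simp [avg, ← Finset.mul_sum, mul_div_assoc]

lemma I1_add (F G : C(AddCircle (1:ℝ), ℂ)) : I1 (F + G) = I1 F + I1 G := by
  unfold I1
  rw [← intervalIntegral.integral_add ((cont_coe F).intervalIntegrable _ _) ((cont_coe G).intervalIntegrable _ _)]
  rfl

lemma I1_smul (c : ℂ) (F : C(AddCircle (1:ℝ), ℂ)) : I1 (c • F) = c * I1 F := by
  unfold I1
  rw [← intervalIntegral.integral_const_mul]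
  rfl

lemma four (θ : ℝ) (hθ : ∀ n : ℤ, n ≠ 0 → ∀ k : ℤ, (n : ℝ) * θ ≠ k) (n : ℤ) :
    Tendsto (fun K : ℕ => avg θ K (fourier n)) atTop (𝓝 (I1 (fourier n))) := by
  by_cases hn : n = 0
  · subst hn
    have h1 : I1 (fourier 0 : C(AddCircle (1:ℝ), ℂ)) = 1 := by simp [I1]
    rw [h1]
    apply tendsto_const_nhds.congr'
    filter_upwards [eventually_gt_atTop 0] with K hK
    have hK' : (K : ℂ) ≠ 0 := by exact_mod_cast hK.ne'
    simp [avg, hK']
  · have h1 : I1 (fourier n : C(AddCircle (1:ℝ), ℂ)) = 0 := by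
      have hc : (2 * Real.pi * Complex.I * n : ℂ) ≠ 0 := by
        have : (n : ℂ) ≠ 0 := by exact_mod_cast hn
        simp [this, Real.pi_ne_zero]
      have := integral_exp_mul_complex (a := 0) (b := 1) hc
      have h2 : I1 (fourier n : C(AddCircle (1:ℝ), ℂ)) = ∫ x in (0:ℝ)..1, Complex.exp (2 * Real.pi * Complex.I * n * x) := by
        unfold I1
        apply intervalIntegral.integral_congr
        intro u _
        simp only [fourier_coe_apply]
        simp
      rw [h2, this]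
      have h3 : Complex.exp (2 * Real.pi * Complex.I * n * (1:ℝ)) = 1 := by
        rw [Complex.exp_eq_one_iff]
        exact ⟨n, by push_cast; ring⟩
      rw [h3]; simp
    rw [h1]
    set w : ℂ := Complex.exp (2 * Real.pi * Complex.I * (n * θ : ℝ)) with hw
    have hw1 : w ≠ 1 := by
      intro h
      rw [hw, Complex.exp_eq_one_iff] at h
      obtain ⟨m, hm⟩ := h
      have : ((n * θ : ℝ) : ℂ) = m := by
        have h2 : (2 * Real.pi * Complex.I : ℂ) ≠ 0 := by simp [Real.pi_ne_zero]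
        apply mul_left_cancel₀ h2
        rw [hm]; ring
      exact hθ n hn m (by exact_mod_cast this)
    have hwn : ‖w‖ = 1 := by
      rw [hw, show (2 * Real.pi * Complex.I * (n * θ : ℝ) : ℂ) = ((2 * Real.pi * (n * θ) : ℝ) : ℂ) * Complex.I by push_cast; ring]
      exact Complex.norm_exp_ofReal_mul_I _
    have hav : ∀ K : ℕ, avg θ K (fourier n) = ((w ^ K - 1) / (w - 1)) / K := by
      intro K
      unfold avg
      rw [← geom_sum_eq hw1]
      congr 1
      apply Finset.sum_congr rfl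
      intro D _
      rw [fourier_coe_apply, hw, ← Complex.exp_nat_mul]
      congr 1
      push_cast; ring
    apply squeeze_zero_norm (a := fun K : ℕ => (2 / ‖w - 1‖) / K)
    · intro K
      rw [hav, norm_div, norm_div, Complex.norm_natCast]
      gcongr
      calc ‖w ^ K - 1‖ ≤ ‖w ^ K‖ + ‖(1:ℂ)‖ := norm_sub_le _ _
        _ = 2 := by rw [norm_pow, hwn]; norm_num
    · exact tendsto_const_div_atTop_nhds_zero_nat _

theorem weyl (θ : ℝ) (hθ : ∀ n : ℤ, n ≠ 0 → ∀ k : ℤ, (n : ℝ) * θ ≠ k) (F : C(AddCircle (1:ℝ), ℂ)) :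
    Tendsto (fun K : ℕ => avg θ K F) atTop (𝓝 (I1 F)) := by
  have hspan : ∀ G ∈ Submodule.span ℂ (Set.range (@fourier 1)),
      Tendsto (fun K : ℕ => avg θ K G) atTop (𝓝 (I1 G)) := by
    intro G hG
    induction hG using Submodule.span_induction with
    | mem x h => obtain ⟨n, rfl⟩ := h; exact four θ hθ n
    | zero =>
      have h0 : I1 (0 : C(AddCircle (1:ℝ), ℂ)) = 0 := by simp [I1]
      have h1 : ∀ K, avg θ K (0 : C(AddCircle (1:ℝ), ℂ)) = 0 := by intro K; simp [avg]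
      simp only [h0, h1]; exact tendsto_const_nhds
    | add x y _ _ hx hy =>
      simp only [avg_add, I1_add]; exact hx.add hy
    | smul a x _ hx =>
      simp only [avg_smul, I1_smul]; exact hx.const_mul a
  have hd : F ∈ (Submodule.span ℂ (Set.range (@fourier 1))).topologicalClosure := by
    rw [span_fourier_closure_eq_top]; trivial
  have hd' : F ∈ closure (Submodule.span ℂ (Set.range (@fourier 1)) : Set C(AddCircle (1:ℝ), ℂ)) := hd
  rw [Metric.mem_closure_iff] at hd'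
  rw [Metric.tendsto_atTop]
  intro ε hε
  obtain ⟨G, hG, hFG⟩ := hd' (ε / 3) (by positivity)
  obtain ⟨K0, hK0⟩ := (Metric.tendsto_atTop.1 (hspan G hG)) (ε / 3) (by positivity)
  refine ⟨K0, fun K hK => ?_⟩
  have h1 := hK0 K hK
  rw [dist_eq_norm] at *
  have e1 : avg θ K F = avg θ K (F - G) + avg θ K G := by rw [← avg_add]; simp
  have e2 : I1 F = I1 (F - G) + I1 G := by rw [← I1_add]; simp
  rw [e1, e2]
  have h2 := avg_norm_le θ K (F - G)
  have h3 := I1_norm_le (F - G)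
  calc ‖avg θ K (F - G) + avg θ K G - (I1 (F - G) + I1 G)‖ 
      = ‖avg θ K (F - G) - I1 (F - G) + (avg θ K G - I1 G)‖ := by congr 1; ring
    _ ≤ ‖avg θ K (F - G)‖ + ‖I1 (F - G)‖ + ‖avg θ K G - I1 G‖ := by
        refine (norm_add_le _ _).trans ?_
        gcongr
        exact norm_sub_le _ _
    _ < ε / 3 + ε / 3 + ε / 3 := by
        linarith
    _ = ε := by ring

end Pool.Agent.KS6_24.LN.Base
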