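import Mathlib

set_option autoImplicit false

namespace Pool.Agent.KS6_24.LN.Base

open Finset Filter Topology

/-! ### Weyl equidistribution -/

noncomputable def avg (θ : ℝ) (K : ℕ) (F : C(AddCircle (1:ℝ), ℂ)) : ℂ :=
  (∑ D ∈ range K, F ((D * θ : ℝ) : AddCircle (1:ℝ))) / K

noncomputable def I1 (F : C(AddCircle (1:ℝ), ℂ)) : ℂ := ∫ u in (0:ℝ)..1, F ((u : ℝ) : AddCircle (1:ℝ))

lemma cont_coe (F : C(AddCircle (1:ℝ), ℂ)) : Continuous (fun u : ℝ => F ((u : ℝ) : AddCircle (1:ℝ))) :=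
  F.continuous.comp (AddCircle.continuous_mk' 1)

lemma avg_norm_le (θ : ℝ) (K : ℕ) (F : C(AddCircle (1:ℝ), ℂ)) : ‖avg θ K F‖ ≤ ‖F‖ := by
  unfold avg
  rcases Nat.eq_zero_or_pos K with h | h
  · subst h; simp
  · rw [norm_div, Complex.norm_natCast, div_le_iff₀ (by exact_mod_cast h)]
    calc ‖∑ D ∈ range K, F ((D * θ : ℝ) : AddCircle (1:ℝ))‖ 
        ≤ ∑ D ∈ range K, ‖F ((D * θ : ℝ) : AddCircle (1:ℝ))‖ := norm_sum_le _ _
      _ ≤ ∑ D ∈ range K, ‖F‖ := Finset.sum_le_sum fun _ _ => F.norm_coe_le_norm _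
      _ = ‖F‖ * K := by simp [mul_comm]

lemma I1_norm_le (F : C(AddCircle (1:ℝ), ℂ)) : ‖I1 F‖ ≤ ‖F‖ := by
  unfold I1
  have := intervalIntegral.norm_integral_le_of_norm_le_const (a := (0:ℝ)) (b := 1) (C := ‖F‖)
    (f := fun u : ℝ => F ((u : ℝ) : AddCircle (1:ℝ))) (fun u _ => F.norm_coe_le_norm _)
  simpa using this

lemma avg_add (θ : ℝ) (K : ℕ) (F G : C(AddCircle (1:ℝ), ℂ)) : avg θ K (F + G) = avg θ K F + avg θ K G := by
  simp [avg, Finset.sum_add_distrib, add_div]

lemma avg_smul (θ : ℝ) (K : ℕ) (c : ℂ) (F : C(AddCircle (1:ℝ), ℂ)) : avg θ K (c • F) = c * avg θ K F := by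
  simp [avg, ← Finset.mul_sum, mul_div_assoc]

lemma I1_add (F G : C(AddCircle (1:ℝ), ℂ)) : I1 (F + G) = I1 F + I1 G := by
  unfold I1
  rw [← intervalIntegral.integral_add ((cont_coe F).intervalIntegrable _ _) ((cont_coe G).intervalIntegrable _ _)]
  rfl

lemma I1_smul (c : ℂ) (F : C(AddCircle (1:ℝ), ℂ)) : I1 (c • F) = c * I1 F := by
  unfold I1
  rw [← intervalIntegral.integral_const_mul]
  rfl

lemma four (θ : ℝ) (hθ : ∀ n : ℤ, n ≠ 0 → ∀ k : ℤ, (n : ℝ) * θ ≠ k) (n : ℤ) :
    Tendsto (fun K : ℕ => avg θ K (fourier n)) atTop (𝓝 (I1 (fourier n))) := by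
  by_cases hn : n = 0
  · subst hn
    have h1 : I1 (fourier 0 : C(AddCircle (1:ℝ), ℂ)) = 1 := by simp [I1]
    rw [h1]
    apply tendsto_const_nhds.congr'
    filter_upwards [eventually_gt_atTop 0] with K hK
    have hK' : (K : ℂ) ≠ 0 := by exact_mod_cast hK.ne'
    simp [avg, hK']
  · have h1 : I1 (fourier n : C(AddCircle (1:ℝ), ℂ)) = 0 := by
      have hc : (2 * Real.pi * Complex.I * n : ℂ) ≠ 0 := by
        have : (n : ℂ) ≠ 0 := by exact_mod_cast hn
        simp [this, Real.pi_ne_zero]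
      have := integral_exp_mul_complex (a := 0) (b := 1) hc
      have h2 : I1 (fourier n : C(AddCircle (1:ℝ), ℂ)) = ∫ x in (0:ℝ)..1, Complex.exp (2 * Real.pi * Complex.I * n * x) := by
        unfold I1
        apply intervalIntegral.integral_congr
        intro u _
        simp only [fourier_coe_apply]
        simp
      rw [h2, this]
      have h3 : Complex.exp (2 * Real.pi * Complex.I * n * (1:ℝ)) = 1 := by
        rw [Complex.exp_eq_one_iff]
        exact ⟨n, by push_cast; ring⟩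
      rw [h3]; simp
    rw [h1]
    set w : ℂ := Complex.exp (2 * Real.pi * Complex.I * (n * θ : ℝ)) with hw
    have hw1 : w ≠ 1 := by
      intro h
      rw [hw, Complex.exp_eq_one_iff] at h
      obtain ⟨m, hm⟩ := h
      have : ((n * θ : ℝ) : ℂ) = m := by
        have h2 : (2 * Real.pi * Complex.I : ℂ) ≠ 0 := by simp [Real.pi_ne_zero]
        apply mul_left_cancel₀ h2
        rw [hm]; ring
      exact hθ n hn m (by exact_mod_cast this)
    have hwn : ‖w‖ = 1 := by
      rw [hw, show (2 * Real.pi * Complex.I * (n * θ : ℝ) : ℂ) = ((2 * Real.pi * (n * θ) : ℝ) : ℂ) * Complex.I by push_cast; ring]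
      exact Complex.norm_exp_ofReal_mul_I _
    have hav : ∀ K : ℕ, avg θ K (fourier n) = ((w ^ K - 1) / (w - 1)) / K := by
      intro K
      unfold avg
      rw [← geom_sum_eq hw1]
      congr 1
      apply Finset.sum_congr rfl
      intro D _
      rw [fourier_coe_apply, hw, ← Complex.exp_nat_mul]
      congr 1
      push_cast; ring
    apply squeeze_zero_norm (a := fun K : ℕ => (2 / ‖w - 1‖) / K)
    · intro K
      rw [hav, norm_div, norm_div, Complex.norm_natCast]
      gcongr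
      calc ‖w ^ K - 1‖ ≤ ‖w ^ K‖ + ‖(1:ℂ)‖ := norm_sub_le _ _
        _ = 2 := by rw [norm_pow, hwn]; norm_num
    · exact tendsto_const_div_atTop_nhds_zero_nat _

theorem weyl (θ : ℝ) (hθ : ∀ n : ℤ, n ≠ 0 → ∀ k : ℤ, (n : ℝ) * θ ≠ k) (F : C(AddCircle (1:ℝ), ℂ)) :
    Tendsto (fun K : ℕ => avg θ K F) atTop (𝓝 (I1 F)) := by
  have hspan : ∀ G ∈ Submodule.span ℂ (Set.range (@fourier 1)),
      Tendsto (fun K : ℕ => avg θ K G) atTop (𝓝 (I1 G)) := by
    intro G hG
    induction hG using Submodule.span_induction with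
    | mem x h => obtain ⟨n, rfl⟩ := h; exact four θ hθ n
    | zero =>
      have h0 : I1 (0 : C(AddCircle (1:ℝ), ℂ)) = 0 := by simp [I1]
      have h1 : ∀ K, avg θ K (0 : C(AddCircle (1:ℝ), ℂ)) = 0 := by intro K; simp [avg]
      simp only [h0, h1]; exact tendsto_const_nhds
    | add x y _ _ hx hy =>
      simp only [avg_add, I1_add]; exact hx.add hy
    | smul a x _ hx =>
      simp only [avg_smul, I1_smul]; exact hx.const_mul a
  have hd : F ∈ (Submodule.span ℂ (Set.range (@fourier 1))).topologicalClosure := by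
    rw [span_fourier_closure_eq_top]; trivial
  have hd' : F ∈ closure (Submodule.span ℂ (Set.range (@fourier 1)) : Set C(AddCircle (1:ℝ), ℂ)) := hd
  rw [Metric.mem_closure_iff] at hd'
  rw [Metric.tendsto_atTop]
  intro ε hε
  obtain ⟨G, hG, hFG⟩ := hd' (ε / 3) (by positivity)
  obtain ⟨K0, hK0⟩ := (Metric.tendsto_atTop.1 (hspan G hG)) (ε / 3) (by positivity)
  refine ⟨K0, fun K hK => ?_⟩
  have h1 := hK0 K hK
  rw [dist_eq_norm] at *
  have e1 : avg θ K F = avg θ K (F - G) + avg θ K G := by rw [← avg_add]; simp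
  have e2 : I1 F = I1 (F - G) + I1 G := by rw [← I1_add]; simp
  rw [e1, e2]
  have h2 := avg_norm_le θ K (F - G)
  have h3 := I1_norm_le (F - G)
  calc ‖avg θ K (F - G) + avg θ K G - (I1 (F - G) + I1 G)‖ 
      = ‖avg θ K (F - G) - I1 (F - G) + (avg θ K G - I1 G)‖ := by congr 1; ring
    _ ≤ ‖avg θ K (F - G)‖ + ‖I1 (F - G)‖ + ‖avg θ K G - I1 G‖ := by
        refine (norm_add_le _ _).trans ?_
        gcongr
        exact norm_sub_le _ _
    _ < ε / 3 + ε / 3 + ε / 3 := by
        linarith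
    _ = ε := by ring


/-! ### intervals -/

noncomputable def trap (a b η u : ℝ) : ℝ := max 0 (min 1 (min ((u - a) / η) ((b - u) / η)))

lemma trap_cont (a b η : ℝ) : Continuous (trap a b η) := by
  unfold trap; fun_prop

lemma trap_nonneg (a b η u : ℝ) : 0 ≤ trap a b η u := le_max_left _ _

lemma trap_le (a b η u : ℝ) (hη : 0 < η) : trap a b η u ≤ if a ≤ u ∧ u < b then 1 else 0 := by
  unfold trap
  split_ifs with h
  · exact max_le zero_le_one (min_le_left _ _)
  · apply max_le le_rfl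
    rw [not_and_or, not_le, not_lt] at h
    rcases h with h | h
    · refine (min_le_right _ _).trans ((min_le_left _ _).trans ?_)
      exact (div_nonpos_of_nonpos_of_nonneg (by linarith) hη.le)
    · refine (min_le_right _ _).trans ((min_le_right _ _).trans ?_)
      exact (div_nonpos_of_nonpos_of_nonneg (by linarith) hη.le)

lemma trap_ge (a b η u : ℝ) (hη : 0 < η) (h1 : a + η ≤ u) (h2 : u ≤ b - η) : 1 ≤ trap a b η u := by
  unfold trap
  apply le_max_of_le_right
  refine le_min le_rfl (le_min ?_ ?_)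
  · rw [le_div_iff₀ hη]; linarith
  · rw [le_div_iff₀ hη]; linarith

lemma trap_int (a b η : ℝ) (ha : 0 ≤ a) (hb : b ≤ 1) (hη : 0 < η) :
    b - a - 2 * η ≤ ∫ u in (0:ℝ)..1, trap a b η u := by
  by_cases h : b - a - 2 * η ≤ 0
  · refine h.trans ?_
    exact intervalIntegral.integral_nonneg (by norm_num) (fun u _ => trap_nonneg _ _ _ _)
  · push Not at h
    have h1 : ∫ u in (a + η)..(b - η), (1:ℝ) ≤ ∫ u in (a + η)..(b - η), trap a b η u := by
      apply intervalIntegral.integral_mono_on (by linarith)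
      · exact intervalIntegrable_const
      · exact (trap_cont a b η).intervalIntegrable _ _
      · intro u hu; exact trap_ge a b η u hη hu.1 hu.2
    have h2 : ∫ u in (a + η)..(b - η), trap a b η u ≤ ∫ u in (0:ℝ)..1, trap a b η u := by
      apply intervalIntegral.integral_mono_interval (by linarith) (by linarith) (by linarith)
      · exact Eventually.of_forall (fun u => trap_nonneg _ _ _ _)
      · exact (trap_cont a b η).intervalIntegrable _ _
    have h3 : ∫ u in (a + η)..(b - η), (1:ℝ) = b - a - 2 * η := by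
      rw [intervalIntegral.integral_const]; simp; ring
    linarith

lemma coe_fract (x : ℝ) : ((Int.fract x : ℝ) : AddCircle (1:ℝ)) = (x : AddCircle (1:ℝ)) := by
  rw [← sub_eq_zero, ← AddCircle.coe_sub, AddCircle.coe_eq_zero_iff]
  exact ⟨-⌊x⌋, by simp [Int.fract]⟩

lemma trap_lim (θ : ℝ) (hθ : ∀ n : ℤ, n ≠ 0 → ∀ k : ℤ, (n : ℝ) * θ ≠ k) (a b η : ℝ) (ha : 0 ≤ a) (hb : b ≤ 1)
    (hη : 0 < η) :
    Tendsto (fun K : ℕ => (∑ D ∈ range K, trap a b η (Int.fract (D * θ))) / K) atTop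
      (𝓝 (∫ u in (0:ℝ)..1, trap a b η u)) := by
  have h01 : trap a b η 0 = trap a b η 1 := by
    have h0 : trap a b η 0 = 0 := by
      apply le_antisymm _ (trap_nonneg _ _ _ _)
      unfold trap
      apply max_le le_rfl
      refine (min_le_right _ _).trans ((min_le_left _ _).trans ?_)
      exact (div_nonpos_of_nonpos_of_nonneg (by linarith) hη.le)
    have h1 : trap a b η 1 = 0 := by
      apply le_antisymm _ (trap_nonneg _ _ _ _)
      unfold trap
      apply max_le le_rfl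
      refine (min_le_right _ _).trans ((min_le_right _ _).trans ?_)
      exact (div_nonpos_of_nonpos_of_nonneg (by linarith) hη.le)
    rw [h0, h1]
  have : Fact ((0:ℝ) < 1) := ⟨zero_lt_one⟩
  let g : ℝ → ℂ := fun u => ((trap a b η u : ℝ) : ℂ)
  have hg : Continuous g := Complex.continuous_ofReal.comp (trap_cont a b η)
  let F : C(AddCircle (1:ℝ), ℂ) := ⟨AddCircle.liftIco 1 0 g,
    AddCircle.liftIco_zero_continuous (by simp [g, h01]) hg.continuousOn⟩
  have hF : ∀ u ∈ Set.Ico (0:ℝ) 1, F (u : AddCircle (1:ℝ)) = g u := by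
    intro u hu
    exact AddCircle.liftIco_zero_coe_apply (f := g) (by simpa using hu)
  have hav : ∀ K : ℕ, avg θ K F = (((∑ D ∈ range K, trap a b η (Int.fract (D * θ))) / K : ℝ) : ℂ) := by
    intro K
    unfold avg
    push_cast
    congr 1
    apply Finset.sum_congr rfl
    intro D _
    rw [← coe_fract, hF _ ⟨Int.fract_nonneg _, Int.fract_lt_one _⟩]
  have hI : I1 F = ((∫ u in (0:ℝ)..1, trap a b η u : ℝ) : ℂ) := by
    unfold I1
    rw [← intervalIntegral.integral_ofReal]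
    apply intervalIntegral.integral_congr_ae
    have : ∀ᵐ u : ℝ, u ≠ 1 := by
      simp [MeasureTheory.ae_iff]
    filter_upwards [this] with u hu hu2
    rw [Set.uIoc_of_le zero_le_one] at hu2
    exact hF u ⟨hu2.1.le, lt_of_le_of_ne hu2.2 hu⟩
  have := weyl θ hθ F
  rw [hI] at this
  simp only [hav] at this
  exact_mod_cast (Complex.continuous_re.tendsto _).comp this

lemma cnt_ge (θ : ℝ) (hθ : ∀ n : ℤ, n ≠ 0 → ∀ k : ℤ, (n : ℝ) * θ ≠ k) (a b η : ℝ) (ha : 0 ≤ a) (hb : b ≤ 1)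
    (hη : 0 < η) : ∀ᶠ K : ℕ in atTop, (b - a - η) * K ≤
      #((range K).filter (fun D : ℕ => a ≤ Int.fract (D * θ) ∧ Int.fract (D * θ) < b)) := by
  have h1 := trap_lim θ hθ a b (η / 4) ha hb (by positivity)
  have h2 := trap_int a b (η / 4) ha hb (by positivity)
  have h3 : b - a - η < ∫ u in (0:ℝ)..1, trap a b (η / 4) u := by linarith
  filter_upwards [h1.eventually (lt_mem_nhds h3), eventually_gt_atTop 0] with K hK hK0
  have hK0' : (0:ℝ) < K := by exact_mod_cast hK0
  rw [lt_div_iff₀ hK0'] at hK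
  refine hK.le.trans ?_
  rw [Finset.card_filter]
  push_cast
  apply Finset.sum_le_sum
  intro D _
  exact trap_le a b _ _ (by positivity)

lemma cnt_lim (θ : ℝ) (hθ : ∀ n : ℤ, n ≠ 0 → ∀ k : ℤ, (n : ℝ) * θ ≠ k) (v η : ℝ) (h0 : 0 ≤ v) (h1 : v ≤ 1)
    (hη : 0 < η) : ∀ᶠ K : ℕ in atTop, |(#((range K).filter (fun D : ℕ => Int.fract (D * θ) < v)) : ℝ) - v * K| ≤ η * K := by
  filter_upwards [cnt_ge θ hθ 0 v η le_rfl h1 hη, cnt_ge θ hθ v 1 η h0 le_rfl hη] with K hK1 hK2
  have e1 : #((range K).filter (fun D : ℕ => (0:ℝ) ≤ Int.fract (D * θ) ∧ Int.fract (D * θ) < v))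
      = #((range K).filter (fun D : ℕ => Int.fract (D * θ) < v)) := by
    congr 1
    apply Finset.filter_congr
    intro D _
    simp [Int.fract_nonneg]
  have e2 : #((range K).filter (fun D : ℕ => v ≤ Int.fract (D * θ) ∧ Int.fract (D * θ) < 1))
      = #((range K).filter (fun D : ℕ => ¬ Int.fract (D * θ) < v)) := by
    congr 1
    apply Finset.filter_congr
    intro D _
    simp [Int.fract_lt_one]
  rw [e1] at hK1
  rw [e2] at hK2
  have e3 := Finset.card_filter_add_card_filter_not (s := range K) (fun D : ℕ => Int.fract (D * θ) < v)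
  rw [card_range] at e3
  have e3' : (#((range K).filter (fun D : ℕ => Int.fract (D * θ) < v)) : ℝ) + #((range K).filter (fun D : ℕ => ¬ Int.fract (D * θ) < v)) = K := by
    exact_mod_cast e3
  rw [abs_le]
  constructor <;> nlinarith

/-- `min (max v 0) 1` -/
noncomputable def cl (v : ℝ) : ℝ := min (max v 0) 1

lemma cnt_unif (θ : ℝ) (hθ : ∀ n : ℤ, n ≠ 0 → ∀ k : ℤ, (n : ℝ) * θ ≠ k) (η : ℝ) (hη : 0 < η) :
    ∃ K0 : ℕ, ∀ K : ℕ, K0 ≤ K → ∀ v : ℝ, |(#((range K).filter (fun D : ℕ => Int.fract (D * θ) < v)) : ℝ) - cl v * K| ≤ η * K := by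
  obtain ⟨n, hn⟩ := exists_nat_gt (2 / η)
  have hn0 : (0:ℝ) < n := lt_trans (by positivity) hn
  have hall : ∀ᶠ K : ℕ in atTop, ∀ j ∈ range (n + 1), 
      |(#((range K).filter (fun D : ℕ => Int.fract (D * θ) < (j / n : ℝ))) : ℝ) - (j / n : ℝ) * K| ≤ (η / 2) * K := by
    rw [Finset.eventually_all]
    intro j hj
    rw [mem_range] at hj
    apply cnt_lim θ hθ _ _ (by positivity) _ (by positivity)
    rw [div_le_one hn0]
    exact_mod_cast (by omega : j ≤ n)
  obtain ⟨K0, hK0⟩ := eventually_atTop.1 hall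
  refine ⟨K0, fun K hK v => ?_⟩
  have hKn : (0:ℝ) ≤ K := Nat.cast_nonneg _
  have h := hK0 K hK
  have hmono : ∀ x y : ℝ, x ≤ y → (#((range K).filter (fun D : ℕ => Int.fract (D * θ) < x)) : ℝ) ≤ #((range K).filter (fun D : ℕ => Int.fract (D * θ) < y)) := by
    intro x y hxy
    exact_mod_cast Finset.card_le_card (Finset.monotone_filter_right _ (fun D _ hD => lt_of_lt_of_le hD hxy))
  unfold cl
  by_cases hv0 : v ≤ 0
  · rw [max_eq_right hv0, min_eq_left zero_le_one]
    have : #((range K).filter (fun D : ℕ => Int.fract (D * θ) < v)) = 0 := by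
      rw [Finset.card_eq_zero, Finset.filter_eq_empty_iff]
      intro D _ hD
      linarith [Int.fract_nonneg (D * θ)]
    rw [this]; simp; positivity
  push Not at hv0
  rw [max_eq_left hv0.le]
  by_cases hv1 : 1 ≤ v
  · rw [min_eq_right hv1]
    have : #((range K).filter (fun D : ℕ => Int.fract (D * θ) < v)) = K := by
      rw [Finset.filter_true_of_mem, card_range]
      intro D _
      linarith [Int.fract_lt_one (D * θ)]
    rw [this]; simp; positivity
  push Not at hv1
  rw [min_eq_left hv1.le]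
  set j := ⌊v * n⌋₊ with hj
  have hj1 : (j : ℝ) ≤ v * n := Nat.floor_le (by positivity)
  have hj2 : v * n < j + 1 := Nat.lt_floor_add_one _
  have hjn : j < n := by
    have : (j : ℝ) < n := lt_of_le_of_lt hj1 (by nlinarith)
    exact_mod_cast this
  have ha := h j (mem_range.2 (by omega))
  have hb := h (j + 1) (mem_range.2 (by omega))
  have hx1 : (j / n : ℝ) ≤ v := by rw [div_le_iff₀ hn0]; exact hj1
  have hx2 : v ≤ ((j + 1 : ℕ) / n : ℝ) := by rw [le_div_iff₀ hn0]; push_cast; exact hj2.le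
  have m1 := hmono _ _ hx1
  have m2 := hmono _ _ hx2
  have hinv : 1 / (n : ℝ) < η / 2 := by
    rw [div_lt_div_iff₀ hn0 (by norm_num)]
    rw [div_lt_iff₀ hη] at hn
    linarith
  have hx3 : ((j + 1 : ℕ) / n : ℝ) = j / n + 1 / n := by push_cast; ring
  rw [abs_le] at ha hb ⊢
  rw [hx3] at hb hx2 m2
  have p1 : (v - j / n) * K ≤ (η / 2) * K := mul_le_mul_of_nonneg_right (by linarith) hKn
  have p2 : (j / n + 1 / n - v) * K ≤ (η / 2) * K := mul_le_mul_of_nonneg_right (by linarith) hKn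
  constructor <;> nlinarith [ha.1, ha.2, hb.1, hb.2]

end Pool.Agent.KS6_24.LN.Base
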